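import Mathlib
import Pool.Agent.R35.PathOrdB

set_option autoImplicit false

/-!
# When do 5 and 6 belong to J(n)?
-/

namespace Pool.Agent.Results.MP_ccc55c_co.FiveAndSix

open Finset

/-- Property `P_i`: any two distinct vertices are joined by a path with exactly `i` vertices. -/
def HasP {V : Type} (G : SimpleGraph V) (i : ℕ) : Prop :=
  ∀ u v : V, u ≠ v → ∃ p : G.Walk u v, p.IsPath ∧ p.support.length = i

/-- The closure of `S`: the `j ∈ {2, ..., n}` such that every graph of order `n` with `P_i` for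
all `i ∈ S` has `P_j`. -/
def closure (n : ℕ) (S : Set ℕ) : Set ℕ :=
  {j | 2 ≤ j ∧ j ≤ n ∧ ∀ G : SimpleGraph (Fin n), (∀ i ∈ S, HasP G i) → HasP G j}

/-- `J(n)`: the `j ∈ {3, ..., n}` such that `j ∈ closure n S` implies `j ∈ S` for every
`S ⊆ {3, ..., n}`. -/
def J (n : ℕ) : Set ℕ :=
  {j | 3 ≤ j ∧ j ≤ n ∧ ∀ S : Set ℕ, S ⊆ Set.Icc 3 n → j ∈ closure n S → j ∈ S}

theorem mem_J {n j : ℕ} : j ∈ J n ↔ 3 ≤ j ∧ j ≤ n ∧ ∃ G : SimpleGraph (Fin n),
    (∀ i, 3 ≤ i → i ≤ n → i ≠ j → HasP G i) ∧ ¬ HasP G j := by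
  constructor
  · rintro ⟨h1, h2, h3⟩
    refine ⟨h1, h2, ?_⟩
    by_contra hcon
    push Not at hcon
    have := h3 (Set.Icc 3 n \ {j}) Set.sdiff_subset ⟨by omega, h2, fun G hG =>
      hcon G (fun i hi hi' hij => hG i ⟨⟨hi, hi'⟩, by simpa using hij⟩)⟩
    exact this.2 rfl
  · rintro ⟨h1, h2, G, hG, hj⟩
    refine ⟨h1, h2, fun S hS hcl => ?_⟩
    by_contra hjS
    exact hj (hcl.2.2 G (fun i hi => hG i (hS hi).1 (hS hi).2 (fun h => hjS (h ▸ hi))))

theorem hasP_iff {V : Type} (G : SimpleGraph V) (i : ℕ) :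
    HasP G i ↔ Pool.Agent.R35.PathOrd.HasP G i := Iff.rfl

/-! ## The graphs on at least eleven vertices -/

/-- adjacency for `x < y` -/
def g (x y : ℕ) : Prop :=
  (x < 2 ∧ y < 5) ∨ (x = 2 ∧ y = 3) ∨ (2 ≤ x ∧ x < 5 ∧ 5 ≤ y ∧ x % 3 = y % 3) ∨ 5 ≤ x

/-- the graph -/
def GG (n : ℕ) : SimpleGraph (Fin n) where
  Adj x y := (x.val < y.val ∧ g x.val y.val) ∨ (y.val < x.val ∧ g y.val x.val)
  symm := ⟨fun _ _ h => h.symm⟩
  loopless := ⟨fun _ h => by
    rcases h with h | h
    · exact absurd h.1 (lt_irrefl _)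
    · exact absurd h.1 (lt_irrefl _)⟩

theorem cfg (n : ℕ) (hn : 11 ≤ n) :
    Pool.Agent.R35.PathOrd.Cfg (GG n) (Finset.Ici (⟨5, by omega⟩ : Fin n))
      ⟨0, by omega⟩ ⟨1, by omega⟩ ⟨2, by omega⟩ ⟨3, by omega⟩ ⟨4, by omega⟩ := by
  have hadj : ∀ x y : Fin n, (GG n).Adj x y ↔
      ((x.val < y.val ∧ g x.val y.val) ∨ (y.val < x.val ∧ g y.val x.val)) := fun _ _ => Iff.rfl
  constructor
  · simp [hadj, g]
  · simp [hadj, g]
  · simp [hadj, g]
  · simp [hadj, g]
  · simp [hadj, g]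
  · simp [hadj, g]
  · simp [hadj, g]
  · simp [Fin.le_def]
  · simp [Fin.le_def]
  · simp [Fin.le_def]
  · simp [Fin.le_def]
  · simp [Fin.le_def]
  · simp
  · simp
  · simp
  · intro x hx y hy hxy
    rw [Finset.mem_Ici, Fin.le_def] at hx hy
    simp only at hx hy
    have : x.val ≠ y.val := fun h => hxy (Fin.ext h)
    simp only [hadj, g]
    omega
  · intro z
    by_cases hz : z.val = 5
    · refine ⟨⟨8, by omega⟩, by simp [Fin.le_def], ?_, by simp [hadj, g]⟩
      intro h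
      rw [← h] at hz
      simp at hz
    · refine ⟨⟨5, by omega⟩, by simp [Fin.le_def], ?_, by simp [hadj, g]⟩
      intro h
      rw [← h] at hz
      simp at hz
  · intro z
    by_cases hz : z.val = 6
    · refine ⟨⟨9, by omega⟩, by simp [Fin.le_def], ?_, by simp [hadj, g]⟩
      intro h
      rw [← h] at hz
      simp at hz
    · refine ⟨⟨6, by omega⟩, by simp [Fin.le_def], ?_, by simp [hadj, g]⟩
      intro h
      rw [← h] at hz
      simp at hz
  · intro z
    by_cases hz : z.val = 7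
    · refine ⟨⟨10, by omega⟩, by simp [Fin.le_def], ?_, by simp [hadj, g]⟩
      intro h
      rw [← h] at hz
      simp at hz
    · refine ⟨⟨7, by omega⟩, by simp [Fin.le_def], ?_, by simp [hadj, g]⟩
      intro h
      rw [← h] at hz
      simp at hz
  · intro x hx
    rw [Finset.mem_Ici, Fin.le_def] at hx
    simp only [hadj, g] at hx ⊢
    omega
  · intro x hx
    rw [Finset.mem_Ici, Fin.le_def] at hx
    simp only [hadj, g] at hx ⊢
    omega
  · intro x hx
    rw [Finset.mem_Ici, Fin.le_def] at hx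
    simp only [hadj, g] at hx ⊢
    omega
  · intro x hx
    rw [Finset.mem_Ici, Fin.le_def] at hx
    simp only [hadj, g] at hx ⊢
    omega
  · rw [Fin.card_Ici]
    simp only
    omega

theorem not_five (n : ℕ) (hn : 11 ≤ n) : ¬ HasP (GG n) 5 := by
  intro h
  obtain ⟨a, b, c, h1, h2, h3, h4, hnd⟩ := Pool.Agent.R35.PathOrd.q5_inv
    (h ⟨0, by omega⟩ ⟨1, by omega⟩ (by simp))
  simp only [List.nodup_cons, List.mem_cons, List.not_mem_nil, or_false, not_or,
    List.nodup_nil, and_true, Fin.ext_iff] at hnd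
  have hadj : ∀ x y : Fin n, (GG n).Adj x y ↔
      ((x.val < y.val ∧ g x.val y.val) ∨ (y.val < x.val ∧ g y.val x.val)) := fun _ _ => Iff.rfl
  simp only [hadj, g] at h1 h2 h3 h4
  omega

theorem has_all (n : ℕ) (hn : 11 ≤ n) (i : ℕ) (hi : 3 ≤ i) (hi' : i ≤ n) (hi5 : i ≠ 5) :
    HasP (GG n) i := by
  have h := cfg n hn
  have hc : i ≤ (Finset.Ici (⟨5, by omega⟩ : Fin n)).card + 5 := by
    rw [Fin.card_Ici]
    simp only
    omega
  have key : ∀ u v : Fin n, u.val < v.val → Pool.Agent.R35.PathOrd.Q (GG n) i u v := by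
    intro u v huv
    by_cases hv : 5 ≤ v.val
    · have hvR : v ∈ (Finset.Ici (⟨5, by omega⟩ : Fin n)) := by
        rw [Finset.mem_Ici, Fin.le_def]
        exact hv
      by_cases hu : 5 ≤ u.val
      · have huR : u ∈ (Finset.Ici (⟨5, by omega⟩ : Fin n)) := by
          rw [Finset.mem_Ici, Fin.le_def]
          exact hu
        have hne : u ≠ v := fun h => by
          rw [h] at huv
          exact lt_irrefl _ huv
        rcases h.cov u huR with h1 | h1 | h1
        · exact h.XY hi hi5 hc huR hvR hne h1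
        · exact h.rot.XY hi hi5 hc huR hvR hne h1
        · exact h.rot.rot.XY hi hi5 hc huR hvR hne h1
      · have hu5 : u.val < 5 := by omega
        obtain ⟨m, hm⟩ := u
        simp only at hu5
        interval_cases m
        · rcases h.cov v hvR with h1 | h1 | h1
          · exact h.PX hi hi5 hc hvR h1
          · exact h.rot.PX hi hi5 hc hvR h1
          · exact h.rot.rot.PX hi hi5 hc hvR h1
        · rcases h.cov v hvR with h1 | h1 | h1
          · exact h.sw.PX hi hi5 hc hvR h1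
          · exact h.sw.rot.PX hi hi5 hc hvR h1
          · exact h.sw.rot.rot.PX hi hi5 hc hvR h1
        · exact h.AX hi hi5 hc hvR
        · exact h.rot.AX hi hi5 hc hvR
        · exact h.rot.rot.AX hi hi5 hc hvR
    · obtain ⟨m, hm⟩ := u
      obtain ⟨k, hk⟩ := v
      simp only at hv huv
      have hk5 : k < 5 := by omega
      interval_cases k <;> interval_cases m
      · exact h.PQ (by left; simp [g]) hi hi5 hc
      · exact h.PA hi hi5 hc
      · exact h.sw.PA hi hi5 hc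
      · exact h.rot.PA hi hi5 hc
      · exact h.sw.rot.PA hi hi5 hc
      · exact h.AB hi hi5 hc
      · exact h.rot.rot.PA hi hi5 hc
      · exact h.sw.rot.rot.PA hi hi5 hc
      · exact (h.rot.rot.AB hi hi5 hc).symm
      · exact h.rot.AB hi hi5 hc
  intro u v huv
  rcases Nat.lt_or_ge u.val v.val with h1 | h1
  · exact key u v h1
  · refine (key v u ?_).symm
    have : u.val ≠ v.val := fun h => huv (Fin.ext h)
    omega

/-! ## Five vertices: the fan -/

/-- adjacency matrix of the fan -/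
def a5 (x y : Fin 5) : Bool :=
  decide ((min x.val y.val, max x.val y.val) ∈ ([(1, 2), (0, 3), (2, 3), (0, 4), (1, 4), (2, 4),
    (3, 4)] : List (ℕ × ℕ)))

/-- the fan on five vertices -/
def G5 : SimpleGraph (Fin 5) where
  Adj x y := a5 x y = true
  symm := ⟨by decide⟩
  loopless := ⟨by decide⟩

/-- adjacency matrix of the sun -/
def a6 (x y : Fin 6) : Bool :=
  decide ((min x.val y.val, max x.val y.val) ∈ ([(1, 3), (2, 3), (0, 4), (2, 4), (3, 4), (0, 5),
    (1, 5), (3, 5), (4, 5)] : List (ℕ × ℕ)))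

/-- the sun on six vertices -/
def G6 : SimpleGraph (Fin 6) where
  Adj x y := a6 x y = true
  symm := ⟨by decide⟩
  loopless := ⟨by decide⟩

theorem mem5 : 5 ∈ J 5 := by
  rw [mem_J]
  refine ⟨by norm_num, le_refl _, G5, ?_, ?_⟩
  · intro i hi hi' hi5
    have h3 : ∀ u v : Fin 5, u ≠ v → ∃ a, a5 u a = true ∧ a5 a v = true ∧ [u, a, v].Nodup := by
      decide
    have h4 : ∀ u v : Fin 5, u ≠ v → ∃ a b, a5 u a = true ∧ a5 a b = true ∧ a5 b v = true ∧
        [u, a, b, v].Nodup := by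
      decide
    intro u v huv
    rcases (by omega : i = 3 ∨ i = 4) with rfl | rfl
    · obtain ⟨a, h1, h2, hn⟩ := h3 u v huv
      exact Pool.Agent.R35.PathOrd.q3 (G := G5) h1 h2 hn
    · obtain ⟨a, b, h1, h2, h5, hn⟩ := h4 u v huv
      exact Pool.Agent.R35.PathOrd.q4 (G := G5) h1 h2 h5 hn
  · intro h
    obtain ⟨a, b, c, h1, h2, h3, h4, hn⟩ := Pool.Agent.R35.PathOrd.q5_inv (h 2 4 (by decide))
    have hno : ∀ a b c : Fin 5, a5 2 a = true → a5 a b = true → a5 b c = true →
        a5 c 4 = true → ¬ [2, a, b, c, 4].Nodup := by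
      decide
    exact hno a b c h1 h2 h3 h4 hn

/-! ## Six vertices: the sun -/

theorem mem6 : 6 ∈ J 6 := by
  rw [mem_J]
  refine ⟨by norm_num, le_refl _, G6, ?_, ?_⟩
  · intro i hi hi' hi5
    have h3 : ∀ u v : Fin 6, u ≠ v → ∃ a, a6 u a = true ∧ a6 a v = true ∧ [u, a, v].Nodup := by
      decide
    have h4 : ∀ u v : Fin 6, u ≠ v → ∃ a b, a6 u a = true ∧ a6 a b = true ∧ a6 b v = true ∧
        [u, a, b, v].Nodup := by
      decide
    have h5 : ∀ u v : Fin 6, u ≠ v → ∃ a b c, a6 u a = true ∧ a6 a b = true ∧ a6 b c = true ∧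
        a6 c v = true ∧ [u, a, b, c, v].Nodup := by
      decide
    intro u v huv
    rcases (by omega : i = 3 ∨ i = 4 ∨ i = 5) with rfl | rfl | rfl
    · obtain ⟨a, h1, h2, hn⟩ := h3 u v huv
      exact Pool.Agent.R35.PathOrd.q3 (G := G6) h1 h2 hn
    · obtain ⟨a, b, h1, h2, h5, hn⟩ := h4 u v huv
      exact Pool.Agent.R35.PathOrd.q4 (G := G6) h1 h2 h5 hn
    · obtain ⟨a, b, c, h1, h2, h6, h7, hn⟩ := h5 u v huv
      exact Pool.Agent.R35.PathOrd.q5 (G := G6) h1 h2 h6 h7 hn
  · intro h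
    obtain ⟨a, b, c, d, h1, h2, h3, h4, h5, hn⟩ :=
      Pool.Agent.R35.PathOrd.q6_inv (h 3 4 (by decide))
    have hno : ∀ a b c d : Fin 6, a6 3 a = true → a6 a b = true → a6 b c = true →
        a6 c d = true → a6 d 4 = true → ¬ [3, a, b, c, d, 4].Nodup := by
      decide
    exact hno a b c d h1 h2 h3 h4 h5 hn

/-- **When 5 and 6 are free.** `5 ∈ J(n)` exactly for `n = 5` and `n ≥ 11`, and `6 ∈ J(n)` exactly
for `n = 6`. -/
theorem result : ∀ n : ℕ, (5 ∈ J n ↔ n = 5 ∨ 11 ≤ n) ∧ (6 ∈ J n ↔ n = 6) := by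
  intro n
  refine ⟨⟨fun h => ?_, ?_⟩, ⟨fun h => ?_, ?_⟩⟩
  · by_contra hcon
    push Not at hcon
    obtain ⟨h1, h2, G, hG, h5⟩ := mem_J.1 h
    have hn : 5 < n := by omega
    apply h5
    intro u v huv
    by_contra hQ
    have := Pool.Agent.R35.PathOrd.five (G := G) (u := u) (v := v)
      (hG 3 (le_refl _) (by omega) (by norm_num))
      (by rw [Fintype.card_fin]; exact hG n (by omega) (le_refl _) (by omega))
      (by rw [Fintype.card_fin]; omega) huv hQ
    rw [Fintype.card_fin] at this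
    omega
  · rintro (rfl | h)
    · exact mem5
    · exact mem_J.2 ⟨by norm_num, by omega, GG n, fun i hi hi' hi5 => has_all n h i hi hi' hi5,
        not_five n h⟩
  · obtain ⟨h1, h2, G, hG, h6⟩ := mem_J.1 h
    by_contra hne
    apply h6
    intro u v huv
    exact Pool.Agent.R35.PathOrd.six (G := G) (hG 3 (le_refl _) (by omega) (by norm_num))
      (by rw [Fintype.card_fin]; exact hG n (by omega) (le_refl _) (by omega))
      (by rw [Fintype.card_fin]; omega) huv
  · rintro rfl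
    exact mem6

end Pool.Agent.Results.MP_ccc55c_co.FiveAndSix
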